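import Mathlib
import Pool.Agent.H24R2.JP.JS

set_option autoImplicit false

open Filter Topology

namespace Pool.Agent.Results.MP_5a4862_nt.FareyWindows

/-- The Farey sequence `F_n`: all rationals `p/q` in `(0, 1]` with `1 ≤ p, q ≤ n`. -/
def farey (n : ℕ) : Finset ℚ :=
  ((Finset.Icc 1 n ×ˢ Finset.Icc 1 n).image (fun p : ℕ × ℕ => (p.1 : ℚ) / (p.2 : ℚ))).filter
    (fun q : ℚ => q ≤ 1)

/-- The `(j+1)`-st term `f_{j+1}` of `F_n` in increasing order, as a real number. -/
noncomputable def term (n : ℕ) (j : Fin (farey n).card) : ℝ :=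
  (((farey n).orderEmbOfFin rfl j : ℚ) : ℝ)

/-- The sum of `|f_i - i/|F_n|| ^ p` over the indices `i = j + 1` with `x < f_i < y`. -/
noncomputable def windowPow (p : ℝ) (n : ℕ) (x y : ℝ) : ℝ :=
  ∑ j : Fin (farey n).card,
    if x < term n j ∧ term n j < y then |term n j - ((j : ℕ) + 1 : ℝ) / ((farey n).card : ℝ)| ^ p else 0

/-- `Θ`: the supremum of the real parts of the zeros of the Riemann zeta function in the critical strip. -/
noncomputable def Theta : ℝ :=
  sSup (Complex.re '' {s : ℂ | riemannZeta s = 0 ∧ 0 < s.re ∧ s.re < 1})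

/-- Unconditionally, the `p`-th power sum of the displacements of the Farey fractions of order `n`
in the window `(a/b, a/b + κ n^{-c})` has an exact exponent, a function of `Θ`; and a zero-free
half-plane exists exactly when, for one or for all choices of `p, a/b, c, κ`, this power sum beats
the exponent `2 - p - c` by a positive amount for infinitely many `n`. -/
theorem result (p : ℝ) (hp : 0 < p) (a b : ℕ) (hab : a < b) (hco : Nat.Coprime a b) (c κ : ℝ) (hc : 0 ≤ c)
    (hc1 : c < 1) (hκ : 0 < κ) :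
    Tendsto
      (fun n : ℕ => Real.log (windowPow p n ((a : ℝ) / b) ((a : ℝ) / b + κ * (n : ℝ) ^ (-c))) / Real.log n)
      atTop (𝓝 (1 - p + (1 - c) * max 0 (1 - (1 - Theta) * p))) ∧
    ((∃ σ₀ : ℝ, 1 / 2 < σ₀ ∧ σ₀ < 1 ∧ ∀ s : ℂ, σ₀ ≤ s.re → riemannZeta s ≠ 0) ↔
      ∃ δ : ℝ, 0 < δ ∧ ∃ᶠ n : ℕ in atTop,
        windowPow p n ((a : ℝ) / b) ((a : ℝ) / b + κ * (n : ℝ) ^ (-c)) ≤ (n : ℝ) ^ (2 - p - c - δ)) := by
  have key : Tendsto
      (fun n : ℕ => Real.log (windowPow p n ((a : ℝ) / b) ((a : ℝ) / b + κ * (n : ℝ) ^ (-c))) / Real.log n)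
      atTop (𝓝 (1 - p + (1 - c) * max 0 (1 - (1 - Theta) * p))) :=
    Pool.Agent.H24R2.JP.JS.result p hp a b hab hco c κ hc hc1 hκ
  have hT0 : 1 / 2 ≤ Theta := Pool.Agent.H295R2.half_le_zetaSup
  have hT1 : Theta ≤ 1 := Pool.Agent.H295R2.zetaSup_le_one
  refine ⟨key, ?_, ?_⟩
  · rintro ⟨σ₀, h1, h2, h3⟩
    have hT : Theta ≤ σ₀ := by
      by_contra hcon
      rw [not_le] at hcon
      have hne : (Complex.re '' {s : ℂ | riemannZeta s = 0 ∧ 0 < s.re ∧ s.re < 1}).Nonempty := by
        by_contra hemp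
        rw [Set.not_nonempty_iff_eq_empty] at hemp
        have : Theta = 0 := by
          unfold Theta
          rw [hemp, Real.sSup_empty]
        linarith
      obtain ⟨x, ⟨s, ⟨hs, _, _⟩, rfl⟩, hx⟩ := exists_lt_of_lt_csSup hne hcon
      exact h3 s hx.le hs
    have hT2 : Theta < 1 := lt_of_le_of_lt hT h2
    have hlt : max 0 (1 - (1 - Theta) * p) < 1 := by
      refine max_lt one_pos ?_
      have : 0 < (1 - Theta) * p := mul_pos (by linarith) hp
      linarith
    set m := max 0 (1 - (1 - Theta) * p) with hm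
    have hδ : 0 < (1 - c) * (1 - m) := mul_pos (by linarith) (by linarith)
    refine ⟨(1 - c) * (1 - m) / 2, by linarith, Eventually.frequently ?_⟩
    have hev := key.eventually (gt_mem_nhds (show 1 - p + (1 - c) * m <
      2 - p - c - (1 - c) * (1 - m) / 2 by nlinarith))
    filter_upwards [hev, eventually_ge_atTop 2] with n hn hn2
    have hn2' : (2 : ℝ) ≤ n := by exact_mod_cast hn2
    have hl : 0 < Real.log n := Real.log_pos (by linarith)
    have hW0 : 0 ≤ windowPow p n ((a : ℝ) / b) ((a : ℝ) / b + κ * (n : ℝ) ^ (-c)) := by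
      unfold windowPow
      refine Finset.sum_nonneg fun j _ => ?_
      split_ifs
      · positivity
      · exact le_rfl
    rcases hW0.eq_or_lt with h | h
    · rw [← h]
      positivity
    · rw [div_lt_iff₀ hl] at hn
      rw [← Real.log_le_log_iff h (by positivity), Real.log_rpow (by linarith)]
      exact hn.le
  · rintro ⟨δ, hδ, hfr⟩
    have hT2 : Theta < 1 := by
      by_contra hcon
      have hT : Theta = 1 := le_antisymm hT1 (not_lt.1 hcon)
      have hlow := Pool.Agent.H452R2.FL.win_lower_bulk hab hco hc hc1 hκ hp (half_pos hδ)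
      obtain ⟨n, hn, hn2, hn3⟩ := (hfr.and_eventually (hlow.and (eventually_ge_atTop 2))).exists
      have hn2' : (2 : ℝ) ≤ n := by exact_mod_cast hn3
      have hle : (n : ℝ) ^ (1 - p + (1 - c) * (1 - (1 - Theta) * p) - δ / 2) ≤
          (n : ℝ) ^ (2 - p - c - δ) := hn2.trans hn
      rw [Real.rpow_le_rpow_left_iff (by linarith), hT] at hle
      linarith
    refine ⟨(Theta + 1) / 2 + (1 - Theta) / 4, by linarith, by linarith, fun s hs hz => ?_⟩
    by_cases h1 : 1 ≤ s.re
    · exact riemannZeta_ne_zero_of_one_le_re h1 hz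
    · have hmem : s.re ∈ Complex.re '' {s : ℂ | riemannZeta s = 0 ∧ 0 < s.re ∧ s.re < 1} :=
        ⟨s, ⟨hz, by linarith, not_le.1 h1⟩, rfl⟩
      have : s.re ≤ Theta := le_csSup Pool.Agent.H295R2.zset_bdd hmem
      linarith

end Pool.Agent.Results.MP_5a4862_nt.FareyWindows
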