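import Pool.Agent.TH803.LG.Fin

set_option autoImplicit false

/-!
# MP_5a4862_nt: the Laguerre inequalities for the Riemann Xi function, and the constant 4

`Ξ(x) = ξ(1/2 + i x)`, and `|Ξ(x + i y)|² = ∑ L_n(x) y^(2n)`.  The Riemann hypothesis holds if and
only if `L_n(x) ≥ 0` for all `n` and all real `x` (the Laguerre inequalities).  Here: for every `κ < 4`
they hold, strictly, for all large `n` and all `|x| ≤ exp (κ n)`; and the constant `4` can be improved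
if and only if zeta has a zero-free half-plane `Re s > θ` with `θ < 1`.
-/

namespace Pool.Agent.Results.MP_5a4862_nt.LaguerreFour

/-- The Riemann xi function `s (s - 1) π^(-s/2) Γ(s/2) ζ(s) / 2`, as an entire function. -/
noncomputable def xi (s : ℂ) : ℂ := s * (s - 1) / 2 * completedRiemannZeta₀ s + 1 / 2

/-- `Ξ(x) = ξ(1/2 + i x)` for real `x` (where it is real). -/
noncomputable def Xi (x : ℝ) : ℝ := (xi (1 / 2 + Complex.I * x)).re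

/-- The Laguerre expression `L_n(x) = ∑_{j ≤ 2n} (-1)^(n+j) C(2n, j) / (2n)! Ξ^(j)(x) Ξ^(2n-j)(x)`. -/
noncomputable def L (n : ℕ) (x : ℝ) : ℝ :=
  ∑ j ∈ Finset.range (2 * n + 1), (-1) ^ (n + j) * ((2 * n).choose j : ℝ) / ((2 * n).factorial : ℝ) *
    iteratedDeriv j Xi x * iteratedDeriv (2 * n - j) Xi x

/-- `L_n(x) > 0` whenever `n ≥ N` and `|x| ≤ exp (κ n)`. -/
def UpTo (κ : ℝ) (N : ℕ) : Prop :=
  ∀ (n : ℕ) (x : ℝ), N ≤ n → |x| ≤ Real.exp (κ * n) → 0 < L n x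

/-- `L_n(x) ≥ 0` in all the remaining cases. -/
def Rest (κ : ℝ) (N : ℕ) : Prop :=
  ∀ (n : ℕ) (x : ℝ), (n < N ∨ Real.exp (κ * n) < |x|) → 0 ≤ L n x

/-- The zeta function has no zeros with `Re s > θ`. -/
def ZeroFree (θ : ℝ) : Prop := ∀ s : ℂ, θ < s.re → riemannZeta s ≠ 0

theorem result :
    (∀ κ : ℝ, κ < 4 → ∃ N : ℕ, UpTo κ N ∧ (RiemannHypothesis ↔ Rest κ N)) ∧
    (∀ θ : ℝ, 1 / 2 ≤ θ → θ < 1 → ZeroFree θ → ∀ κ : ℝ, κ * (θ - 1 / 2) < 2 → ∃ N : ℕ, UpTo κ N) ∧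
    ((∃ κ : ℝ, 4 < κ ∧ ∃ N : ℕ, ∀ (n : ℕ) (x : ℝ), N ≤ n → |x| ≤ Real.exp (κ * n) → 0 ≤ L n x) ↔
      ∃ θ : ℝ, θ < 1 ∧ ZeroFree θ) :=
  Pool.Agent.TH803.LG.final

end Pool.Agent.Results.MP_5a4862_nt.LaguerreFour
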