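import Pool.Agent.TH988.RB.Fin3

/-!
# The number of exceptions to Nicolas' inequality and zero-free half-planes

Let `N(x)` be the number of integers `3 ≤ n ≤ x` with `n / φ(n) ≥ e^γ log log n` and let `Θ` be the
supremum of the real parts of the zeros of the Riemann zeta function. Then
`log log N(x) / log log x → (1 + Θ) / 2`, unconditionally.
-/

set_option autoImplicit false

namespace Pool.Agent.Results.MP_5a4862_nt.NicolasExceptions

open Filter Topology

/-- `n ≥ 3` is exceptional if `e^γ (log log n) φ(n) ≤ n` -/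
def Exceptional (n : ℕ) : Prop :=
  3 ≤ n ∧ Real.exp Real.eulerMascheroniConstant * Real.log (Real.log n) * (Nat.totient n : ℝ) ≤ n

/-- the number of exceptional integers up to `x` -/
noncomputable def count (x : ℝ) : ℕ := {n : ℕ | Exceptional n ∧ (n : ℝ) ≤ x}.ncard

/-- the supremum of the real parts of the zeros of the Riemann zeta function -/
noncomputable def Theta : ℝ := sSup (Complex.re '' {s : ℂ | riemannZeta s = 0})

theorem result :
    -- the law
    Tendsto (fun x : ℝ => Real.log (Real.log (count x)) / Real.log (Real.log x)) atTop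
      (𝓝 ((1 + Theta) / 2)) ∧
    -- half-planes
    (∀ θ : ℝ, 1 / 2 ≤ θ → θ < 1 →
      ((∀ s : ℂ, θ < s.re → riemannZeta s ≠ 0) ↔ ∀ ε : ℝ, 0 < ε → ∃ᶠ x : ℝ in atTop,
        (count x : ℝ) ≤ Real.exp (Real.log x ^ ((1 + θ) / 2 + ε)))) ∧
    -- the question
    ((∃ σ₀ : ℝ, 1 / 2 < σ₀ ∧ σ₀ < 1 ∧ ∀ s : ℂ, σ₀ ≤ s.re → riemannZeta s ≠ 0) ↔
      ∃ c : ℝ, c < 1 ∧ ∃ᶠ x : ℝ in atTop, (count x : ℝ) ≤ Real.exp (Real.log x ^ c)) := by
  have hlaw : Tendsto (fun x : ℝ => Real.log (Real.log (count x)) / Real.log (Real.log x)) atTop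
      (𝓝 ((1 + Theta) / 2)) := Pool.Agent.TH988.RB.law
  have hge : 1 / 2 ≤ Theta := Pool.Agent.TH988.RB.Theta_ge_half
  have hup : ∀ ρ : ℝ, (1 + Theta) / 2 < ρ → ∃ᶠ x : ℝ in atTop,
      (count x : ℝ) ≤ Real.exp (Real.log x ^ ρ) := fun ρ h =>
    (Pool.Agent.TH988.RB.cnt_le_exp h).frequently
  have hlo : ∀ c : ℝ, 0 < c → (∃ᶠ x : ℝ in atTop, (count x : ℝ) ≤ Real.exp (Real.log x ^ c)) →
      (1 + Theta) / 2 ≤ c := fun c hc h => Pool.Agent.TH988.RB.Theta_of_frequently hc h
  have hfree : ∀ θ : ℝ, Theta ≤ θ ↔ ∀ s : ℂ, θ < s.re → riemannZeta s ≠ 0 := fun θ =>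
    Pool.Agent.TH988.RB.Theta_le_iff
  refine ⟨hlaw, fun θ h1 _ => ?_, ?_⟩
  · rw [← hfree θ]
    constructor
    · intro h ε hε
      exact hup _ (by linarith)
    · intro h
      apply le_of_forall_pos_le_add
      intro ε hε
      have h3 := hlo ((1 + θ) / 2 + ε / 2) (by linarith) (h (ε / 2) (by linarith))
      linarith
  · constructor
    · rintro ⟨σ₀, h1, h2, h3⟩
      have h4 : Theta ≤ σ₀ := (hfree σ₀).2 fun s hs => h3 s hs.le
      exact ⟨(3 + σ₀) / 4, by linarith, hup _ (by linarith)⟩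
    · rintro ⟨c, hc, h⟩
      have h1 : (1 + Theta) / 2 ≤ max c (1 / 2) := by
        refine hlo _ (lt_of_lt_of_le (by norm_num) (le_max_right _ _)) ?_
        refine (h.and_eventually (Real.tendsto_log_atTop.eventually_ge_atTop 1)).mono ?_
        rintro x ⟨h2, h3⟩
        refine h2.trans (Real.exp_le_exp.2 ?_)
        exact Real.rpow_le_rpow_of_exponent_le h3 (le_max_left _ _)
      have h2 : max c (1 / 2) < 1 := max_lt hc (by norm_num)
      refine ⟨(1 + Theta) / 2, by linarith, by linarith, fun s hs => ?_⟩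
      exact (hfree Theta).1 le_rfl s (by linarith)

end Pool.Agent.Results.MP_5a4862_nt.NicolasExceptions
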